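import Pool.Agent.K1H62.LL.Lim

/-!
# The limit law of the integer points of the curves with prescribed points at infinity

Let `φ` be an irreducible binary form of degree `d ≥ 5` with integral coefficients, and consider the
curves `φ + R = 0`, where `R` is an integral polynomial of degree at most `d - 1` with coefficients
in `[-H, H]`; these curves have the genus `(d - 1) (d - 2) / 2` in general. For every set `A` of
integer points the number of the curves with a point in `A` is asymptotically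
`(2 H) ^ (M - 1) ∑_{P ∈ A} σ(P)` as `H → ∞`, where `M = d (d + 1) / 2` is the number of the
coefficients and `σ(P)` is an explicit volume, which does not depend on `φ`. The curves with two
integer points are negligible. So 100 percent of the curves with an integer point have exactly one
integer point, its distribution converges to the probability measure `σ / ∑ σ` on `ℤ ^ 2`, and the
proportion of the curves whose integer point is outside of `[-T, T] ^ 2` converges to a limit of the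
exact order `T ^ (-(d - 3))`.
-/

set_option autoImplicit false

open Finset MeasureTheory Filter Topology

namespace Pool.Agent.Results.MP_821da1_nt.LimitLaw

/-- The exponents `(i, j)` of the monomials `x ^ i y ^ j` of degree `1, ..., d - 1`. -/
def Exps (d : ℕ) : Finset (ℕ × ℕ) :=
  (range d ×ˢ range d).filter fun m => 1 ≤ m.1 + m.2 ∧ m.1 + m.2 ≤ d - 1

/-- `σ(P)` is the volume of the set of the points `u` of the cube `[-1/2, 1/2] ^ (M - 1)` with
`|∑ u_{ij} x ^ i y ^ j| ≤ 1/2`, where `P = (x, y)`. -/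
noncomputable def σ (d : ℕ) (P : ℤ × ℤ) : ℝ :=
  volume.real {u : ↥(Exps d) → ℝ | (∀ m, |u m| ≤ 1 / 2) ∧
    |∑ m, u m * ((P.1 ^ m.1.1 * P.2 ^ m.1.2 : ℤ) : ℝ)| ≤ 1 / 2}

/-- The polynomials of degree at most `d - 1` with coefficients in `[-H, H]`. -/
def Box (d H : ℕ) : Set (MvPolynomial (Fin 2) ℤ) :=
  {R | R.totalDegree ≤ d - 1 ∧ ∀ m, |R.coeff m| ≤ (H : ℤ)}

/-- `P` is a point of the curve `F = 0`. -/
def IsPt (F : MvPolynomial (Fin 2) ℤ) (P : ℤ × ℤ) : Prop := MvPolynomial.eval ![P.1, P.2] F = 0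

/-- The size `max (|x|, |y|)` of `P = (x, y)`. -/
def size (P : ℤ × ℤ) : ℕ := max P.1.natAbs P.2.natAbs

open Pool.Agent.R414.DN Pool.Agent.R414.DU Pool.Agent.K1H62.LL

lemma sigma_eq (e : ℕ) (P : ℤ × ℤ) : σ (e + 1) P = sg e P := rfl

lemma M_eq (e : ℕ) : (e + 1) * (e + 1 + 1) / 2 - 1 = MM e - 1 := by rw [MM_eq]

lemma ncard_ZA (e H : ℕ) (φ : MvPolynomial (Fin 2) ℤ) (A : Set (ℤ × ℤ)) :
    Set.ncard {R | R ∈ Box (e + 1) H ∧ ∃ P ∈ A, IsPt (φ + R) P} = (ZA e φ A H).card := by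
  classical
  have h := ncard_box e H (fun R => ∃ P ∈ A, MvPolynomial.eval ![P.1, P.2] (φ + R) = 0)
  have h1 : {R | R ∈ Box (e + 1) H ∧ ∃ P ∈ A, IsPt (φ + R) P} =
      {R : MvPolynomial (Fin 2) ℤ | R.totalDegree ≤ e ∧ (∀ m, |R.coeff m| ≤ (H : ℤ)) ∧
        ∃ P ∈ A, MvPolynomial.eval ![P.1, P.2] (φ + R) = 0} := by
    ext R
    constructor
    · rintro ⟨⟨h1, h2⟩, h3⟩
      exact ⟨h1, h2, h3⟩
    · rintro ⟨h1, h2, h3⟩
      exact ⟨⟨h1, h2⟩, h3⟩
  rw [h1, h]
  congr 1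

lemma ncard_Z2 (e H : ℕ) (φ : MvPolynomial (Fin 2) ℤ) :
    Set.ncard {R | R ∈ Box (e + 1) H ∧ ∃ P Q, P ≠ Q ∧ IsPt (φ + R) P ∧ IsPt (φ + R) Q} =
      (Z2 e φ H).card := by
  classical
  have h := ncard_box e H (fun R => ∃ P Q : ℤ × ℤ, P ≠ Q ∧
    MvPolynomial.eval ![P.1, P.2] (φ + R) = 0 ∧ MvPolynomial.eval ![Q.1, Q.2] (φ + R) = 0)
  have h1 : {R | R ∈ Box (e + 1) H ∧ ∃ P Q, P ≠ Q ∧ IsPt (φ + R) P ∧ IsPt (φ + R) Q} =
      {R : MvPolynomial (Fin 2) ℤ | R.totalDegree ≤ e ∧ (∀ m, |R.coeff m| ≤ (H : ℤ)) ∧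
        ∃ P Q : ℤ × ℤ, P ≠ Q ∧ MvPolynomial.eval ![P.1, P.2] (φ + R) = 0 ∧
          MvPolynomial.eval ![Q.1, Q.2] (φ + R) = 0} := by
    ext R
    constructor
    · rintro ⟨⟨h1, h2⟩, h3⟩
      exact ⟨h1, h2, h3⟩
    · rintro ⟨h1, h2, h3⟩
      exact ⟨⟨h1, h2⟩, h3⟩
  rw [h1, h]
  congr 1

/-- the lower bound for the tail -/
lemma tail_lower {e T : ℕ} {c : ℝ} (he : 4 ≤ e) (hc : 0 < c) (hT : 1 ≤ T)
    (h : ∀ P : ℤ × ℤ, P ≠ (0, 0) → c / (size P : ℝ) ^ e ≤ sg e P) :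
    (c / 2 ^ e) / (T : ℝ) ^ (e - 2) ≤ ∑' P : ↥{P : ℤ × ℤ | T < size P}, sg e P := by
  classical
  have hs := summable_sg (by omega : 3 ≤ e)
  rw [tsum_subtype {P : ℤ × ℤ | T < size P} (sg e)]
  have hsA : Summable ({P : ℤ × ℤ | T < size P}.indicator (sg e)) := hs.indicator _
  obtain ⟨F, hF⟩ : ∃ F : Finset (ℤ × ℤ), F = (range (T + 1) ×ˢ Ioc T (2 * T)).image
    (fun p : ℕ × ℕ => ((p.1 : ℤ), (p.2 : ℤ))) := ⟨_, rfl⟩
  have hFc : F.card = (T + 1) * T := by
    rw [hF, card_image_of_injective, card_product, card_range, Nat.card_Ioc]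
    · congr 1
      omega
    · intro p q hpq
      simp only [Prod.mk.injEq, Nat.cast_inj] at hpq
      exact Prod.ext hpq.1 hpq.2
  have hT0 : (0 : ℝ) < T := by exact_mod_cast hT
  have hterm : ∀ P ∈ F, c / (2 * (T : ℝ)) ^ e ≤ ({P : ℤ × ℤ | T < size P}.indicator (sg e)) P := by
    intro P hP
    rw [hF, mem_image] at hP
    obtain ⟨p, hp, rfl⟩ := hP
    rw [mem_product, mem_range, mem_Ioc] at hp
    have hsz : size ((p.1 : ℤ), (p.2 : ℤ)) = p.2 := by
      unfold size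
      simp only [Int.natAbs_natCast]
      omega
    rw [Set.indicator_of_mem (by show T < size _; rw [hsz]; omega)]
    refine le_trans ?_ (h _ (by
      intro h0
      rw [Prod.mk.injEq] at h0
      have : (p.2 : ℤ) = 0 := h0.2
      omega))
    rw [hsz]
    have h1 : (p.2 : ℝ) ≤ 2 * T := by exact_mod_cast hp.2.2
    have h2 : (0 : ℝ) < p.2 := by exact_mod_cast (by omega : 0 < p.2)
    gcongr
  have h1 := hsA.sum_le_tsum F (fun P _ => Set.indicator_nonneg (fun _ _ => sg_nonneg e _) P)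
  refine le_trans ?_ h1
  have h2 := card_nsmul_le_sum F _ _ hterm
  refine le_trans ?_ h2
  rw [nsmul_eq_mul, hFc]
  push_cast
  have e1 : (T : ℝ) ^ e = (T : ℝ) ^ (e - 2) * (T : ℝ) ^ 2 := by
    rw [← pow_add]
    congr 1
    omega
  rw [mul_pow, e1]
  calc c / 2 ^ e / (T : ℝ) ^ (e - 2) = (T : ℝ) * T * (c / (2 ^ e * ((T : ℝ) ^ (e - 2) * (T : ℝ) ^ 2))) := by
        field_simp
    _ ≤ _ := by
        gcongr
        linarith

/-- the upper bound for the tail -/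
lemma tail_upper {e T : ℕ} (he : 4 ≤ e) (hT : 1 ≤ T) :
    ∑' P : ↥{P : ℤ × ℤ | T < size P}, sg e P ≤ 24 / (T : ℝ) ^ (e - 2) := by
  classical
  have h1 := (tsum_box (by omega : 3 ≤ e) {P : ℤ × ℤ | T < size P} T).2
  have h2 : (Bx T).filter (· ∈ {P : ℤ × ℤ | T < size P}) = ∅ := by
    rw [filter_eq_empty_iff]
    intro P hP hP'
    rw [mem_Bx] at hP
    have h3 : T < sz P := hP'
    omega
  rw [h2, sum_empty, zero_add] at h1
  refine h1.trans ?_
  have hT0 : (0 : ℝ) < T := by exact_mod_cast hT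
  gcongr
  linarith

/-- **The limit law of the integer points of the curves `φ + R = 0`.** -/
theorem result (d : ℕ) (hd : 5 ≤ d) : ∃ c C : ℝ, 0 < c ∧
    -- the size of the densities, and of the tail of the limiting distribution
    (∀ P : ℤ × ℤ, P ≠ (0, 0) →
      c / (size P : ℝ) ^ (d - 1) ≤ σ d P ∧ σ d P ≤ 1 / (size P : ℝ) ^ (d - 1)) ∧
    Summable (σ d) ∧ 0 < ∑' P, σ d P ∧
    (∀ T : ℕ, 1 ≤ T → c / (T : ℝ) ^ (d - 3) ≤ ∑' P : ↥{P : ℤ × ℤ | T < size P}, σ d P ∧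
      ∑' P : ↥{P : ℤ × ℤ | T < size P}, σ d P ≤ C / (T : ℝ) ^ (d - 3)) ∧
    ∀ φ : MvPolynomial (Fin 2) ℤ, φ.IsHomogeneous d →
    Irreducible (MvPolynomial.map (Int.castRingHom ℚ) φ) →
    -- the number of the curves with a point in `A`
    (∀ A : Set (ℤ × ℤ), Tendsto (fun H : ℕ =>
      (Set.ncard {R | R ∈ Box d H ∧ ∃ P ∈ A, IsPt (φ + R) P} : ℝ) /
        (2 * (H : ℝ)) ^ (d * (d + 1) / 2 - 1)) atTop (𝓝 (∑' P : ↥A, σ d P))) ∧
    -- the limiting distribution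
    (∀ A : Set (ℤ × ℤ), Tendsto (fun H : ℕ =>
      (Set.ncard {R | R ∈ Box d H ∧ ∃ P ∈ A, IsPt (φ + R) P} : ℝ) /
        (Set.ncard {R | R ∈ Box d H ∧ ∃ P, IsPt (φ + R) P} : ℝ)) atTop
      (𝓝 ((∑' P : ↥A, σ d P) / ∑' P, σ d P))) ∧
    -- two integer points
    Tendsto (fun H : ℕ =>
      (Set.ncard {R | R ∈ Box d H ∧ ∃ P Q, P ≠ Q ∧ IsPt (φ + R) P ∧ IsPt (φ + R) Q} : ℝ) /
        (Set.ncard {R | R ∈ Box d H ∧ ∃ P, IsPt (φ + R) P} : ℝ)) atTop (𝓝 0) := by
  classical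
  obtain ⟨e, rfl⟩ : ∃ e, d = e + 1 := ⟨d - 1, by omega⟩
  have he : 4 ≤ e := by omega
  have e1 : e + 1 - 1 = e := rfl
  have e3 : e + 1 - 3 = e - 2 := by omega
  have hσ : σ (e + 1) = sg e := funext (sigma_eq e)
  obtain ⟨c0, hc0⟩ : ∃ c0 : ℝ, c0 = 1 / (4 * (8 * ((MM e - 1 : ℕ) : ℝ)) ^ (MM e - 2)) := ⟨_, rfl⟩
  have hM := MM_pos e
  have hc0' : 0 < c0 := by
    rw [hc0]
    have : (0 : ℝ) < ((MM e - 1 : ℕ) : ℝ) := by exact_mod_cast (by omega : 0 < MM e - 1)
    positivity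
  have hbd : ∀ P : ℤ × ℤ, P ≠ (0, 0) →
      c0 / (size P : ℝ) ^ e ≤ sg e P ∧ sg e P ≤ 1 / (size P : ℝ) ^ e := by
    intro P hP
    have h1 : 1 ≤ size P := by
      unfold size
      by_contra h
      apply hP
      apply Prod.ext
      · simp only
        omega
      · simp only
        omega
    have h2 := sig_bounds (e := e) (by omega) (x := P.1) (y := P.2) (M := size P) rfl h1
    unfold sg
    refine ⟨le_trans (le_of_eq ?_) h2.1, h2.2⟩
    rw [hc0, div_div]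
  have hsum := summable_sg (by omega : 3 ≤ e)
  have h10 : 0 < sg e (1, 0) := by
    have h1 := (hbd (1, 0) (by simp)).1
    have h2 : (size ((1 : ℤ), (0 : ℤ)) : ℝ) = 1 := by
      unfold size
      simp
    rw [h2, one_pow, div_one] at h1
    linarith
  have hpos : 0 < ∑' P, sg e P := hsum.tsum_pos (sg_nonneg e) (1, 0) h10
  have h2e : (0 : ℝ) < 2 ^ e := by positivity
  have h2e1 : (1 : ℝ) ≤ 2 ^ e := one_le_pow₀ (by norm_num)
  refine ⟨c0 / 2 ^ e, 24, by positivity, ?_, by rw [hσ]; exact hsum, by rw [hσ]; exact hpos, ?_, ?_⟩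
  · intro P hP
    rw [e1, hσ]
    obtain ⟨g1, g2⟩ := hbd P hP
    refine ⟨le_trans ?_ g1, g2⟩
    have : c0 / 2 ^ e ≤ c0 := div_le_self hc0'.le h2e1
    gcongr
  · intro T hT
    rw [e3, hσ]
    exact ⟨tail_lower he hc0' hT (fun P hP => (hbd P hP).1), tail_upper he hT⟩
  · intro φ hφ hirr
    rw [M_eq, hσ]
    have hlaw := fun A => law he hφ hirr A
    have huniv : Tendsto (fun H : ℕ => ((ZA e φ Set.univ H).card : ℝ) /
        (2 * (H : ℝ)) ^ (MM e - 1)) atTop (𝓝 (∑' P, sg e P)) := by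
      have h1 := hlaw Set.univ
      rw [tsum_univ (sg e)] at h1
      exact h1
    have hall : ∀ H, Set.ncard {R | R ∈ Box (e + 1) H ∧ ∃ P, IsPt (φ + R) P} =
        (ZA e φ Set.univ H).card := by
      intro H
      rw [← ncard_ZA]
      congr 1
      ext R
      constructor
      · rintro ⟨h1, P, h2⟩
        exact ⟨h1, P, trivial, h2⟩
      · rintro ⟨h1, P, -, h2⟩
        exact ⟨h1, P, h2⟩
    have hdiv : ∀ x y : ℕ → ℝ, ∀ᶠ H : ℕ in atTop, x H / (2 * (H : ℝ)) ^ (MM e - 1) /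
        (y H / (2 * (H : ℝ)) ^ (MM e - 1)) = x H / y H := by
      intro x y
      filter_upwards [eventually_ge_atTop 1] with H hH
      have hH0 : (0 : ℝ) < H := by exact_mod_cast hH
      have hX : (2 * (H : ℝ)) ^ (MM e - 1) ≠ 0 := by positivity
      exact div_div_div_cancel_right₀ hX _ _
    refine ⟨fun A => ?_, fun A => ?_, ?_⟩
    · refine (hlaw A).congr fun H => ?_
      rw [ncard_ZA]
    · have h1 := (hlaw A).div huniv hpos.ne'
      refine h1.congr' ?_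
      filter_upwards [hdiv (fun H => ((ZA e φ A H).card : ℝ))
        (fun H => ((ZA e φ Set.univ H).card : ℝ))] with H hH
      rw [ncard_ZA, hall]
      exact hH
    · have h1 := (two he hφ hirr).div huniv hpos.ne'
      rw [zero_div] at h1
      refine h1.congr' ?_
      filter_upwards [hdiv (fun H => ((Z2 e φ H).card : ℝ))
        (fun H => ((ZA e φ Set.univ H).card : ℝ))] with H hH
      rw [ncard_Z2, hall]
      exact hH

end Pool.Agent.Results.MP_821da1_nt.LimitLaw
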