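import Pool.Agent.K1H43.SP.Count
import Pool.Agent.K1H43.SP.Fam
import Pool.Agent.K1H43.SP.Rand

/-!
# Explicit bounds for the integer points on ALL plane curves: few exceptional points, and none near
a typical point

An integer point `P` is exceptional if it is larger than an explicit power of the height of SOME
curve of degree between `4` and `D` through `P`, irreducible over `ℚ`, with a squarefree leading form.
There are at most `C(D) B ^ ((4 D - 2) / K)` exceptional points of size at most `B` for the exponent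
`K`; there are `(2 B + 1) ^ 2` integer points. Hence, for instance, there are only finitely many
exceptional points in random subsets of the plane of density `|P| ^ (-s)`, for every `s > 0`.
-/

set_option autoImplicit false

namespace Pool.Agent.Results.MP_821da1_nt.NearTypicalPoints

open MeasureTheory Filter Topology
open scoped ENNReal

/-- the sum of the absolute values of the coefficients -/
def height (G : MvPolynomial (Fin 2) ℤ) : ℕ := ∑ m ∈ G.support, (G.coeff m).natAbs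

/-- the degree of `G` is between `4` and `D`, `G` is irreducible over `ℚ` and its leading form is
squarefree over `ℚ` -/
def Curve (D : ℕ) (G : MvPolynomial (Fin 2) ℤ) : Prop :=
  4 ≤ G.totalDegree ∧ G.totalDegree ≤ D ∧
    Irreducible (MvPolynomial.map (Int.castRingHom ℚ) G) ∧
    Squarefree (MvPolynomial.map (Int.castRingHom ℚ)
      (MvPolynomial.homogeneousComponent G.totalDegree G))

/-- the size of an integer point -/
def size (P : ℤ × ℤ) : ℕ := max P.1.natAbs P.2.natAbs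

/-- at the point `P` the effective Siegel theorem holds for ALL the curves through `P`: `P` is at most
`((deg G + 1) height G) ^ K` for all curves `G = 0` through `P` -/
def Good (D : ℕ) (K : ℝ) (P : ℤ × ℤ) : Prop :=
  ∀ G : MvPolynomial (Fin 2) ℤ, Curve D G → MvPolynomial.eval ![P.1, P.2] G = 0 →
    (size P : ℝ) ≤ (((G.totalDegree + 1) * height G : ℕ) : ℝ) ^ K

/-- the smallest exponent -/
def K₀ (D : ℕ) : ℕ := 10 ^ 11 * 36 ^ D * (D + 1) ^ 13

/-- the exponent of convergence of the sequence `v` is at most `a` -/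
def ExpLe (v : ℕ → ℝ) (a : ℝ) : Prop :=
  0 ≤ a ∧ (∀ n, 1 ≤ v n) ∧ ∀ t : ℝ, a < t → Summable fun n => v n ^ (-t)

theorem good_iff (D : ℕ) (K : ℝ) (P : ℤ × ℤ) : Good D K P ↔ Pool.Agent.K1H43.SP.Good D K P :=
  Iff.rfl

theorem sub_two {D : ℕ} (hD : 4 ≤ D) : ((4 * D - 2 : ℕ) : ℝ) = 4 * (D : ℝ) - 2 := by
  rw [Nat.cast_sub (by omega)]
  push_cast
  ring

theorem exp_nonneg {D : ℕ} (hD : 4 ≤ D) {K : ℝ} (hK : (K₀ D : ℝ) ≤ K) :
    0 ≤ (4 * (D : ℝ) - 2) / K := by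
  have h4 : (4 : ℝ) ≤ D := by exact_mod_cast hD
  have hK0 : (0 : ℝ) ≤ K := le_trans (Nat.cast_nonneg _) hK
  exact div_nonneg (by linarith) hK0

/-- **(1) The number of exceptional points.** -/
theorem few {D : ℕ} (hD : 4 ≤ D) {K : ℝ} (hK : (K₀ D : ℝ) ≤ K) {B : ℝ} (hB : 1 ≤ B) :
    {P : ℤ × ℤ | ¬ Good D K P ∧ (size P : ℝ) ≤ B}.Finite ∧
      ({P : ℤ × ℤ | ¬ Good D K P ∧ (size P : ℝ) ≤ B}.ncard : ℝ) ≤
        (10 ^ 18 * 104976 ^ D * (D + 1) ^ 16 : ℕ) * B ^ ((4 * (D : ℝ) - 2) / K) := by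
  have h := Pool.Agent.K1H43.SP.count (D := D) (K := K) hK hB
  rw [sub_two hD] at h
  exact h

/-- an exceptional point is not the origin -/
theorem one_le_size {D : ℕ} {K : ℝ} {P : ℤ × ℤ} (h : ¬ Good D K P) : (1 : ℝ) ≤ size P := by
  by_contra hcon
  push Not at hcon
  have h0 : size P = 0 := by
    have : size P < 1 := by exact_mod_cast hcon
    omega
  apply h
  intro G _ _
  rw [h0, Nat.cast_zero]
  exact Real.rpow_nonneg (Nat.cast_nonneg _) _

/-- enlarging the exponent -/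
theorem Good.mono {D : ℕ} {K K' : ℝ} {P : ℤ × ℤ} (h : Good D K P) (hK : K ≤ K') :
    Good D K' P := by
  intro G hG hP
  refine (h G hG hP).trans ?_
  apply Real.rpow_le_rpow_of_exponent_le _ hK
  have hG0 : G ≠ 0 := by
    rintro rfl
    have := hG.1
    simp at this
  have h1 : 1 ≤ height G := Pool.Agent.H322R2.len_pos hG0
  have h2 : 1 ≤ (G.totalDegree + 1) * height G := Nat.mul_pos (by omega) h1
  exact_mod_cast h2

/-- each single point is good for some exponent -/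
theorem exists_good (D : ℕ) (P : ℤ × ℤ) : ∃ K : ℝ, Good D K P := by
  obtain ⟨m, hm⟩ := pow_unbounded_of_one_lt (size P : ℝ) (by norm_num : (1 : ℝ) < 2)
  refine ⟨m, fun G hG hP => ?_⟩
  have hG0 : G ≠ 0 := by
    rintro rfl
    have := hG.1
    simp at this
  have h1 : 1 ≤ height G := Pool.Agent.H322R2.len_pos hG0
  have h2 : 2 ≤ (G.totalDegree + 1) * height G := by
    have := hG.1
    nlinarith
  have h3 : (2 : ℝ) ≤ (((G.totalDegree + 1) * height G : ℕ) : ℝ) := by exact_mod_cast h2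
  rw [Real.rpow_natCast]
  exact hm.le.trans (pow_le_pow_left₀ (by norm_num) h3 _)

/-- finitely many exceptions are harmless -/
theorem all_good {D : ℕ} {K : ℝ} {S : Set (ℤ × ℤ)} (h : {P | P ∈ S ∧ ¬ Good D K P}.Finite) :
    ∃ K' : ℝ, ∀ P ∈ S, Good D K' P := by
  choose κ hκ using exists_good D
  obtain ⟨M, hM⟩ := (h.image κ).bddAbove
  refine ⟨max K M, fun P hP => ?_⟩
  by_cases hg : Good D K P
  · exact hg.mono (le_max_left _ _)
  · exact (hκ P).mono ((hM ⟨P, ⟨hP, hg⟩, rfl⟩).trans (le_max_right _ _))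

/-- **(2) Families of maps.** -/
theorem families {X : Type} [MetricSpace X] (φ : ℕ → ℤ × ℤ → X) (v : ℕ → ℝ) {a τ K : ℝ} {D : ℕ}
    (hD : 4 ≤ D) (hv : ExpLe v a) (hτ : 0 < τ) (hK : (K₀ D : ℝ) ≤ K) :
    ∃ E : Set X, dimH E ≤ ENNReal.ofReal ((a + (4 * D - 2) / K) / τ) ∧
      ∀ ξ : X, ξ ∉ E → ∀ A : ℝ, ∀ᶠ n in atTop, ∀ P : ℤ × ℤ,
        (size P : ℝ) ≤ A * v n → dist ξ (φ n P) ≤ A * v n ^ (-τ) → Good D K P := by
  obtain ⟨E, h1, h2⟩ := Pool.Agent.K1H43.SP.fam_main (X := X) (fun P : ℤ × ℤ => (size P : ℝ))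
    {P | ¬ Good D K P} (exp_nonneg hD hK) (fun B hB => few hD hK hB) v hv.2.1 hv.1 hτ hv.2.2 φ
  refine ⟨E, h1, fun ξ hξ A => ?_⟩
  filter_upwards [h2 ξ hξ A] with n hn P h3 h4
  exact not_not.1 (hn P h3 h4)

/-- the exceptional set of a single map -/
theorem single {X : Type} [MetricSpace X] (φ : ℤ × ℤ → X) {τ K : ℝ} {D : ℕ} (hD : 4 ≤ D)
    (hτ : 0 < τ) (hK : (K₀ D : ℝ) ≤ K) :
    ∃ E : Set X, dimH E ≤ ENNReal.ofReal ((4 * D - 2) / K / τ) ∧ ∀ ξ : X, ξ ∉ E → ∀ A : ℝ,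
      {P | dist ξ (φ P) ≤ A * (size P : ℝ) ^ (-τ) ∧ ¬ Good D K P}.Finite := by
  obtain ⟨E, h1, h2⟩ := Pool.Agent.K1H43.SP.single_map (X := X) (fun P : ℤ × ℤ => (size P : ℝ))
    {P | ¬ Good D K P} (exp_nonneg hD hK) (fun B hB => few hD hK hB) hτ φ
  refine ⟨E, h1, fun ξ hξ A => (h2 ξ hξ A).subset ?_⟩
  rintro P ⟨h3, h4⟩
  exact ⟨h4, one_le_size h4, h3⟩

/-- **(3) A single map.** -/
theorem typical {X : Type} [MetricSpace X] (φ : ℤ × ℤ → X) :
    ∃ E : Set X, dimH E = 0 ∧ ∀ ξ : X, ξ ∉ E → ∀ D : ℕ, ∀ τ : ℝ, 0 < τ → ∃ K : ℝ,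
      ∀ P : ℤ × ℤ, dist ξ (φ P) ≤ (size P : ℝ) ^ (-τ) → Good D K P := by
  have key : ∀ D k j : ℕ, ∃ E : Set X,
      dimH E ≤ ENNReal.ofReal ((4 * ((D : ℝ) + 4) - 2) / (K₀ (D + 4) + j) / (1 / ((k : ℝ) + 1))) ∧
      ∀ ξ : X, ξ ∉ E → ∀ A : ℝ, {P | dist ξ (φ P) ≤ A * (size P : ℝ) ^ (-(1 / ((k : ℝ) + 1))) ∧
        ¬ Good (D + 4) (K₀ (D + 4) + j) P}.Finite := by
    intro D k j
    have hj : (0 : ℝ) ≤ j := Nat.cast_nonneg j
    have h := single φ (τ := 1 / ((k : ℝ) + 1)) (K := K₀ (D + 4) + j) (D := D + 4) (by omega)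
      (by positivity) (by linarith)
    rw [Nat.cast_add, Nat.cast_ofNat] at h
    exact h
  choose E hE1 hE2 using key
  refine ⟨⋃ D, ⋃ k, ⋂ j, E D k j, ?_, ?_⟩
  · rw [dimH_iUnion, ENNReal.iSup_eq_zero]
    intro D
    rw [dimH_iUnion, ENNReal.iSup_eq_zero]
    intro k
    rw [← nonpos_iff_eq_zero]
    have hlim : Tendsto (fun j : ℕ => ENNReal.ofReal
        ((4 * ((D : ℝ) + 4) - 2) / (K₀ (D + 4) + j) / (1 / ((k : ℝ) + 1)))) atTop (𝓝 0) := by
      rw [← ENNReal.ofReal_zero]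
      apply ENNReal.tendsto_ofReal
      have h2 : Tendsto (fun j : ℕ => (4 * ((D : ℝ) + 4) - 2) / ((K₀ (D + 4) : ℝ) + j)) atTop
          (𝓝 0) := by
        apply Tendsto.div_atTop tendsto_const_nhds
        exact tendsto_atTop_add_const_left _ _ tendsto_natCast_atTop_atTop
      have h5 := h2.div_const (1 / ((k : ℝ) + 1))
      rwa [zero_div] at h5
    exact ge_of_tendsto' hlim fun j => (dimH_mono (Set.iInter_subset _ j)).trans (hE1 D k j)
  · intro ξ hξ D τ hτ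
    obtain ⟨k, hk⟩ := exists_nat_ge (1 / τ)
    have hk' : 1 / ((k : ℝ) + 1) ≤ τ := by
      rw [div_le_iff₀ (by positivity)]
      rw [div_le_iff₀ hτ] at hk
      nlinarith
    have h1 : ξ ∉ ⋂ j, E D k j := fun hcon =>
      hξ (Set.mem_iUnion.2 ⟨D, Set.mem_iUnion.2 ⟨k, hcon⟩⟩)
    rw [Set.mem_iInter] at h1
    push Not at h1
    obtain ⟨j, hj⟩ := h1
    have h2 := hE2 D k j ξ hj 1
    have h3 : {P | P ∈ {P : ℤ × ℤ | dist ξ (φ P) ≤ (size P : ℝ) ^ (-τ)} ∧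
        ¬ Good (D + 4) (K₀ (D + 4) + j) P}.Finite := by
      refine h2.subset ?_
      rintro P ⟨h4, h5⟩
      refine ⟨?_, h5⟩
      rw [one_mul]
      refine le_trans h4 ?_
      exact Real.rpow_le_rpow_of_exponent_le (one_le_size h5) (by linarith)
    obtain ⟨K', hK'⟩ := all_good h3
    refine ⟨K', fun P hP G hG hGP => hK' P hP G ⟨hG.1, ?_, hG.2.2⟩ hGP⟩
    have := hG.2.1
    omega

/-- **(4) Windows.** -/
theorem windows (v : ℕ → ℝ) {a θ K : ℝ} {D : ℕ} (hD : 4 ≤ D) (hv : ExpLe v a) (hθ : θ < 1)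
    (hK : (K₀ D : ℝ) ≤ K) (haK : a + (4 * D - 2) / K < 1 - θ) :
    ∀ᵐ α : ℝ, ∀ c : ℝ, ∀ᶠ n in atTop, ∀ P : ℤ × ℤ,
      |(size P : ℝ) - α * v n| ≤ c * v n ^ θ → Good D K P := by
  obtain ⟨E, h1, h2⟩ := families (X := ℝ) (fun n P => (size P : ℝ) / v n) v hD hv
    (τ := 1 - θ) (by linarith) hK
  have h3 : (volume : Measure ℝ) E = 0 := by
    rw [← MeasureTheory.hausdorffMeasure_real]
    have h4 : ((1 : NNReal) : ℝ) = 1 := rfl
    rw [← h4]
    apply hausdorffMeasure_of_dimH_lt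
    refine h1.trans_lt ?_
    have h5 : (a + (4 * D - 2) / K) / (1 - θ) < 1 := by
      rw [div_lt_one (by linarith)]
      exact haK
    have h6 : ((1 : NNReal) : ℝ≥0∞) = ENNReal.ofReal 1 := by simp
    rw [h6, ENNReal.ofReal_lt_ofReal_iff one_pos]
    exact h5
  filter_upwards [measure_eq_zero_iff_ae_notMem.1 h3] with α hα c
  filter_upwards [h2 α hα (|α| + |c|)] with n hn P hP
  have hv1 := hv.2.1 n
  have hv0 : 0 < v n := by linarith
  have hvθ : v n ^ θ ≤ v n := by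
    calc v n ^ θ ≤ v n ^ (1 : ℝ) := Real.rpow_le_rpow_of_exponent_le hv1 hθ.le
      _ = v n := Real.rpow_one _
  apply hn P
  · have h4 := (abs_le.1 hP).2
    have h5 : c * v n ^ θ ≤ |c| * v n :=
      (mul_le_mul_of_nonneg_right (le_abs_self c) (by positivity)).trans
        (mul_le_mul_of_nonneg_left hvθ (abs_nonneg c))
    have h6 : α * v n ≤ |α| * v n := mul_le_mul_of_nonneg_right (le_abs_self α) hv0.le
    linarith
  · rw [Real.dist_eq]
    have h4 : α - (size P : ℝ) / v n = -(((size P : ℝ) - α * v n) / v n) := by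
      field_simp
      ring
    rw [h4, abs_neg, abs_div, abs_of_pos hv0, div_le_iff₀ hv0, mul_assoc,
      ← Real.rpow_add_one hv0.ne']
    have h5 : -(1 - θ) + 1 = θ := by ring
    rw [h5]
    refine hP.trans ?_
    refine mul_le_mul_of_nonneg_right ?_ (by positivity)
    linarith [le_abs_self c, abs_nonneg α]

/-- **(5) Random sets.** -/
theorem random {Ω : Type} [MeasurableSpace Ω] (μ : Measure Ω) (A : ℤ × ℤ → Set Ω) {s c K : ℝ}
    {D : ℕ} (hD : 4 ≤ D) (hs : 0 < s) (hK : (K₀ D : ℝ) ≤ K) (hsK : (4 * D - 2) / K < s)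
    (hA : ∀ P, P ≠ 0 → μ (A P) ≤ ENNReal.ofReal (c * (size P : ℝ) ^ (-s))) :
    ∀ᵐ ω ∂μ, {P | ω ∈ A P ∧ ¬ Good D K P}.Finite := by
  have h := Pool.Agent.K1H43.SP.random_main μ (fun P : ℤ × ℤ => (size P : ℝ))
    {P | ¬ Good D K P} (fun P hP => one_le_size hP) hsK hs (fun B hB => few hD hK hB) A
    (fun P hP => hA P (by
      rintro rfl
      have h1 := one_le_size hP
      simp [size] at h1
      linarith))
  filter_upwards [h] with ω hω
  refine hω.subset ?_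
  rintro P ⟨h1, h2⟩
  exact ⟨h2, h1⟩

/-- **(5) Random sets, all degrees at once.** -/
theorem random_all {Ω : Type} [MeasurableSpace Ω] (μ : Measure Ω) (A : ℤ × ℤ → Set Ω) {s c : ℝ}
    (hs : 0 < s) (hA : ∀ P, P ≠ 0 → μ (A P) ≤ ENNReal.ofReal (c * (size P : ℝ) ^ (-s))) :
    ∀ᵐ ω ∂μ, ∀ D : ℕ, ∃ K : ℝ, ∀ P, ω ∈ A P → Good D K P := by
  rw [ae_all_iff]
  intro D
  set K : ℝ := K₀ (D + 4) + (4 * ((D + 4 : ℕ) : ℝ)) / s with hKdef
  have h0 : (0 : ℝ) ≤ (4 * ((D + 4 : ℕ) : ℝ)) / s := by positivity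
  have hK1 : (1 : ℝ) ≤ K₀ (D + 4) := by
    exact_mod_cast Pool.Agent.K1H43.SP.one_le_CE (D + 4)
  have h1 : (K₀ (D + 4) : ℝ) ≤ K := by linarith
  have h2 : (4 * ((D + 4 : ℕ) : ℝ) - 2) / K < s := by
    rw [div_lt_iff₀ (by linarith), hKdef, mul_add, mul_div_cancel₀ _ hs.ne']
    have : 0 < s * (K₀ (D + 4) : ℝ) := by positivity
    linarith
  filter_upwards [random μ A (D := D + 4) (by omega) hs h1 h2 hA] with ω hω
  obtain ⟨K', hK'⟩ := all_good (S := {P | ω ∈ A P}) hω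
  refine ⟨K', fun P hP G hG hGP => hK' P hP G ⟨hG.1, ?_, hG.2.2⟩ hGP⟩
  have := hG.2.1
  omega

/-- **Theorem.** `Good D K P` says that `|P| ≤ ((deg G + 1) height G) ^ K` for ALL the curves `G = 0`
through the integer point `P`, `G` of degree between `4` and `D`, irreducible over `ℚ`, with a
squarefree leading form. Let `D ≥ 4` and `K ≥ K₀(D) = 10 ^ 11 36 ^ D (D + 1) ^ 13`.

(1) At most `10 ^ 18 104976 ^ D (D + 1) ^ 16 B ^ ((4 D - 2) / K)` integer points of size at most `B`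
are not good, for every `B ≥ 1`.

(2) Let `φ n` be any maps of the integer points to a metric space `X`, `v n ≥ 1` a sequence with
exponent of convergence at most `a`, `τ > 0`. There is a set `E` of Hausdorff dimension at most
`(a + (4 D - 2) / K) / τ` such that for all `ξ` outside `E`, all `A` and all but finitely many `n` all
integer points `P` with `|P| ≤ A v n` and `dist (ξ, φ n P) ≤ A (v n) ^ (-τ)` are good.

(3) Let `φ` be any map of the integer points to a metric space `X`. There is a set `E` of Hausdorff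
dimension zero such that for all `ξ` outside `E`, all `D` and all `τ > 0` there is `K` such that all
integer points with `dist (ξ, φ P) ≤ |P| ^ (-τ)` are good.

(4) Let `v n ≥ 1` be a sequence with exponent of convergence at most `a` and
`a + (4 D - 2) / K < 1 - θ`. For almost all real numbers `α`, all `c` and all but finitely many `n`
all integer points in the window `||P| - α v n| ≤ c (v n) ^ θ` are good.

(5) Let `A P` be any events (independent or not) with `μ (A P) ≤ c |P| ^ (-s)`, `s > 0`, for instance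
that `P` belongs to a random set of density `|P| ^ (-s)`. If `(4 D - 2) / K < s`, almost surely all but
finitely many of the `P` whose event happens are good; and almost surely for every `D` there is `K`
such that all of them are good. -/
theorem result :
    (∀ (D : ℕ) (K B : ℝ), 4 ≤ D → (K₀ D : ℝ) ≤ K → 1 ≤ B →
      {P : ℤ × ℤ | ¬ Good D K P ∧ (size P : ℝ) ≤ B}.Finite ∧
      ({P : ℤ × ℤ | ¬ Good D K P ∧ (size P : ℝ) ≤ B}.ncard : ℝ) ≤
        (10 ^ 18 * 104976 ^ D * (D + 1) ^ 16 : ℕ) * B ^ ((4 * (D : ℝ) - 2) / K)) ∧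
    (∀ (X : Type) [MetricSpace X] (φ : ℕ → ℤ × ℤ → X) (v : ℕ → ℝ) (a τ K : ℝ) (D : ℕ), 4 ≤ D →
      ExpLe v a → 0 < τ → (K₀ D : ℝ) ≤ K →
      ∃ E : Set X, dimH E ≤ ENNReal.ofReal ((a + (4 * D - 2) / K) / τ) ∧
        ∀ ξ : X, ξ ∉ E → ∀ A : ℝ, ∀ᶠ n in atTop, ∀ P : ℤ × ℤ,
          (size P : ℝ) ≤ A * v n → dist ξ (φ n P) ≤ A * v n ^ (-τ) → Good D K P) ∧
    (∀ (X : Type) [MetricSpace X] (φ : ℤ × ℤ → X),
      ∃ E : Set X, dimH E = 0 ∧ ∀ ξ : X, ξ ∉ E → ∀ D : ℕ, ∀ τ : ℝ, 0 < τ → ∃ K : ℝ,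
        ∀ P : ℤ × ℤ, dist ξ (φ P) ≤ (size P : ℝ) ^ (-τ) → Good D K P) ∧
    (∀ (v : ℕ → ℝ) (a θ K : ℝ) (D : ℕ), 4 ≤ D → ExpLe v a → θ < 1 → (K₀ D : ℝ) ≤ K →
      a + (4 * D - 2) / K < 1 - θ →
      ∀ᵐ α : ℝ, ∀ c : ℝ, ∀ᶠ n in atTop, ∀ P : ℤ × ℤ,
        |(size P : ℝ) - α * v n| ≤ c * v n ^ θ → Good D K P) ∧
    (∀ (Ω : Type) [MeasurableSpace Ω] (μ : Measure Ω) (A : ℤ × ℤ → Set Ω) (s c : ℝ), 0 < s →
      (∀ P, P ≠ 0 → μ (A P) ≤ ENNReal.ofReal (c * (size P : ℝ) ^ (-s))) →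
      (∀ (D : ℕ) (K : ℝ), 4 ≤ D → (K₀ D : ℝ) ≤ K → (4 * D - 2) / K < s →
        ∀ᵐ ω ∂μ, {P | ω ∈ A P ∧ ¬ Good D K P}.Finite) ∧
      ∀ᵐ ω ∂μ, ∀ D : ℕ, ∃ K : ℝ, ∀ P, ω ∈ A P → Good D K P) :=
  ⟨fun _ _ _ hD hK hB => few hD hK hB,
    fun _ _ φ v _ _ _ _ hD hv hτ hK => families φ v hD hv hτ hK,
    fun _ _ φ => typical φ,
    fun v _ _ _ _ hD hv hθ hK haK => windows v hD hv hθ hK haK,
    fun _ _ μ A _ _ hs hA => ⟨fun _ _ hD hK hsK => random μ A hD hs hK hsK hA,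
      random_all μ A hs hA⟩⟩

end Pool.Agent.Results.MP_821da1_nt.NearTypicalPoints
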