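import Pool.Agent.K1H93.NF.Thm

set_option autoImplicit false

open NumberField IntermediateField

namespace Pool.Agent.Results.MP_821da1_nt.TorsionCoverings

/-- The length of an integer polynomial: the sum of the absolute values of its coefficients. -/
def len (F : MvPolynomial (Fin 2) ℤ) : ℕ := ∑ m ∈ F.support, (F.coeff m).natAbs

/-- The coordinate ring over `ℚ` of the affine plane curve `F = 0`. -/
abbrev CoordRing (F : MvPolynomial (Fin 2) ℤ) : Type :=
  MvPolynomial (Fin 2) ℚ ⧸ Ideal.span {MvPolynomial.map (Int.castRingHom ℚ) F}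

/-- `A` is a place at infinity of the curve `F = 0`: a valuation ring of its function field `L`
that contains `ℚ` but not both coordinate functions. -/
def AtInfinity (F : MvPolynomial (Fin 2) ℤ) (L : Type) [Field L] [Algebra (CoordRing F) L]
    (A : ValuationSubring L) : Prop :=
  (∀ q : ℚ, algebraMap (CoordRing F) L (algebraMap ℚ (CoordRing F) q) ∈ A) ∧
    ∃ i : Fin 2, algebraMap (CoordRing F) L (Ideal.Quotient.mk _ (MvPolynomial.X i)) ∉ A

/-- The element of the function field `L` of the curve `F = 0` given by the polynomial `f`. -/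
noncomputable def fn (F : MvPolynomial (Fin 2) ℤ) (L : Type) [Field L] [Algebra (CoordRing F) L]
    (f : MvPolynomial (Fin 2) ℤ) : L :=
  algebraMap (CoordRing F) L
    (Ideal.Quotient.mk _ (MvPolynomial.map (Int.castRingHom ℚ) f))

variable {k : Type} [Field k] [NumberField k] {m : ℕ}

/-- The polynomial `∑ c_j f_j` over the ring of integers of the number field `k`, given by integers
`c_j` of `k` and polynomials `f_j` over `ℤ`. -/
noncomputable def lin (c : Fin m → 𝓞 k) (f : Fin m → MvPolynomial (Fin 2) ℤ) :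
    MvPolynomial (Fin 2) (𝓞 k) :=
  ∑ j, MvPolynomial.C (c j) * MvPolynomial.map (Int.castRingHom (𝓞 k)) (f j)

/-- `F` and the `f_j` have degree at most `D`, and `N` bounds `a`, `e`, the lengths of `F` and the
`f_j`, and all complex absolute values of the integers `c_j` of `k`. -/
def Bounded (D N : ℕ) (F : MvPolynomial (Fin 2) ℤ) (c : Fin m → 𝓞 k)
    (f : Fin m → MvPolynomial (Fin 2) ℤ) (a e : ℕ) : Prop :=
  F.totalDegree ≤ D ∧ len F ≤ N ∧ a ≤ N ∧ e ≤ N ∧
    ∀ j, (f j).totalDegree ≤ D ∧ len (f j) ≤ N ∧ ∀ τ : k →+* ℂ, ‖τ (c j)‖ ≤ N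

/-- `f` is a torsion function over `k` on the curve `F = 0`: `f g = a hⁿ` on the curve for some
polynomials `g` and `h` over the ring of integers `𝓞 k`, and the ideal of `𝓞 k[x,y]` generated by
`F`, `f`, `g`, `h` contains `e`; here `a` and `e` are positive integers. (Over `k` this says that
`f` generates the `n`-th power of an ideal of the coordinate ring, namely of `(f, h)`, whose class
in the Picard group of the affine curve over `k` is then killed by `n`.) -/
def Torsion (n : ℕ) (F : MvPolynomial (Fin 2) ℤ) (f : MvPolynomial (Fin 2) (𝓞 k)) (a e : ℕ) :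
    Prop :=
  1 ≤ a ∧ 1 ≤ e ∧ ∃ g h : MvPolynomial (Fin 2) (𝓞 k),
    MvPolynomial.map (Int.castRingHom (𝓞 k)) F ∣ f * g - MvPolynomial.C (a : 𝓞 k) * h ^ n ∧
    MvPolynomial.C (e : 𝓞 k) ∈ Ideal.span
      ({MvPolynomial.map (Int.castRingHom (𝓞 k)) F, f, g, h} : Set (MvPolynomial (Fin 2) (𝓞 k)))

/-- For some embedding `σ` of `k` in an algebraic closure of the function field `L`, the function
`∑ σ(c_j) f_j` is not a `p`-th power in the function field of the curve over the algebraic numbers,
for all primes `p` dividing `n`. (On a smooth affine curve this holds if the class of `(f, h)` above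
has order exactly `n` in the Picard group over the algebraic numbers.) -/
def ExactOrder (n : ℕ) (F : MvPolynomial (Fin 2) ℤ) (c : Fin m → 𝓞 k)
    (f : Fin m → MvPolynomial (Fin 2) ℤ) (L : Type) [Field L] [Algebra (CoordRing F) L] : Prop :=
  ∃ σ : k →+* AlgebraicClosure L, ∀ p : ℕ, p.Prime → p ∣ n →
    ∀ y ∈ adjoin L {z : AlgebraicClosure L | IsAlgebraic ℤ z},
      y ^ p ≠ ∑ j, σ (c j) * algebraMap L (AlgebraicClosure L) (fn F L (f j))

/-- The value at the place `A`, under the embeddings `ι` and `τ`, of the function `∑ c_j w_j` over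
`k` on the curve; here the `w_j` are regular at `A`. -/
noncomputable def val (c : Fin m → 𝓞 k) {L : Type} [Field L] {A : ValuationSubring L}
    (w : Fin m → A) (ι : IsLocalRing.ResidueField A →+* ℝ) (τ : k →+* ℂ) : ℂ :=
  ∑ j, τ (c j) * (ι (IsLocalRing.residue A (w j)) : ℂ)

/-- `K` is the real field generated by the subfield `R` and the sums `∑ τ(b) θ(τ)`, `b` in `k`,
over the complex embeddings `τ` of `k`, where `θ(τ)` is an `n`-th root of `τ(d) v(τ)` and the
choice of the roots is compatible with the complex conjugation (so that these sums are real);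
moreover `K` is a number field of degree at least `n [R : ℚ]`. -/
def RootField (n : ℕ) (d : 𝓞 k) (v : (k →+* ℂ) → ℂ) (R K : IntermediateField ℚ ℝ) : Prop :=
  FiniteDimensional ℚ K ∧ Module.finrank ℚ R * n ≤ Module.finrank ℚ K ∧
    ∃ θ : (k →+* ℂ) → ℂ, (∀ τ, θ τ ^ n = τ d * v τ) ∧
      (∀ τ, θ (ComplexEmbedding.conjugate τ) = starRingEnd ℂ (θ τ)) ∧
      K = adjoin ℚ ((R : Set ℝ) ∪ {x : ℝ | ∃ b : k, (x : ℂ) = ∑ τ : k →+* ℂ, τ b * θ τ})

/-- Polynomial bounds for the integer points on the plane curves `F = 0` with a torsion function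
`f = ∑ c_j f_j` of order `n` over a number field `k`, from Runge's method and its one-constant form
on the coverings `Zⁿ = d f`, descended to `ℚ`. The only constants not depending on `n`, the
degrees and `k` alone are attached to the real fields generated by the residue field of the place
`A` at infinity and the traces of the `n`-th roots of `d` times the value of `f` at `A`, and an
exception is left only if `n` times the degree of `A` is at most `2`. -/
theorem result (n D m : ℕ) (hn : 1 ≤ n) :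
    ∃ C : ℕ, ∀ (k : Type) [Field k] [NumberField k], Module.finrank ℚ k = m →
      ∃ (c₀ : ℕ) (cK : IntermediateField ℚ ℝ → ℕ),
      ∀ (F : MvPolynomial (Fin 2) ℤ) (c : Fin m → 𝓞 k) (f : Fin m → MvPolynomial (Fin 2) ℤ)
        (a e N : ℕ), Bounded D N F c f a e →
        Irreducible (MvPolynomial.map (Int.castRingHom ℚ) F) → Torsion n F (lin c f) a e →
        ∀ (L : Type) [Field L] [Algebra (CoordRing F) L] [IsFractionRing (CoordRing F) L],
        ExactOrder n F c f L →
        ∀ A : ValuationSubring L, AtInfinity F L A →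
        ∀ (t : L) (w : Fin m → A), (∀ j, (w j : L) = fn F L (f j) * t ^ n) →
        (∀ ι τ, val c w ι τ ≠ 0) →
        ∀ x y : ℤ, MvPolynomial.eval ![x, y] F = 0 →
          max x.natAbs y.natAbs ≤ (c₀ * N) ^ C ∨
          (∀ A' : ValuationSubring L, AtInfinity F L A' ↔ A' = A) ∧
          ∃ (d s : 𝓞 k) (ι : IsLocalRing.ResidueField A →+* ℝ) (K : IntermediateField ℚ ℝ),
            d ≠ 0 ∧ (∀ τ : k →+* ℂ, ‖τ d‖ ≤ ((c₀ * max a e : ℕ) : ℝ) ^ C) ∧
            d * MvPolynomial.eval ![(x : 𝓞 k), (y : 𝓞 k)] (lin c f) = s ^ n ∧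
            RootField n d (val c w ι) (adjoin ℚ (Set.range ι)) K ∧
            (Module.finrank ℚ K ≤ 2 ∨ max x.natAbs y.natAbs ≤ (cK K * N) ^ C) := by
  obtain ⟨C, hC⟩ := Pool.Agent.K1H93.NF.fin n D m hn
  refine ⟨C, ?_⟩
  intro k _ _ hkm
  obtain ⟨c₀, cK, hfin⟩ := hC k hkm
  refine ⟨c₀, cK, ?_⟩
  intro F c f a e N hB hirr hT L _ _ _ hord A hA t w hw hne x y hxy
  have : Nontrivial (CoordRing F) := (algebraMap (CoordRing F) L).domain_nontrivial
  let _ : Algebra ℚ L :=
    ((algebraMap (CoordRing F) L).comp (algebraMap ℚ (CoordRing F))).toAlgebra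
  obtain ⟨π, hπ⟩ : ∃ π : MvPolynomial (Fin 2) ℚ →ₐ[ℚ] L, ∀ w, π w
      = algebraMap (CoordRing F) L (Ideal.Quotient.mk _ w) :=
    ⟨{ toRingHom := (algebraMap (CoordRing F) L).comp (Ideal.Quotient.mk _)
       commutes' := fun q => rfl }, fun w => rfl⟩
  have hker : ∀ w, π w = 0 ↔ MvPolynomial.map (Int.castRingHom ℚ) F ∣ w := by
    intro w
    rw [hπ, IsFractionRing.to_map_eq_zero_iff, Ideal.Quotient.eq_zero_iff_mem,
      Ideal.mem_span_singleton]
  have hsurj : ∀ z : L, ∃ w1 w2, π w2 ≠ 0 ∧ π w2 * z = π w1 := by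
    intro z
    obtain ⟨a, s, hs, hz⟩ := IsFractionRing.div_surjective (A := CoordRing F) z
    obtain ⟨w1, rfl⟩ := Ideal.Quotient.mk_surjective a
    obtain ⟨w2, rfl⟩ := Ideal.Quotient.mk_surjective s
    have hne : π w2 ≠ 0 := by
      rw [hπ]
      exact IsFractionRing.to_map_ne_zero_of_mem_nonZeroDivisors hs
    refine ⟨w1, w2, hne, ?_⟩
    rw [← hz, ← hπ, ← hπ]
    field_simp
  have hf : ∀ j, π (MvPolynomial.map (Int.castRingHom ℚ) (f j)) = fn F L (f j) := fun j => hπ _
  have hinf : ∀ A : ValuationSubring L, AtInfinity F L A ↔ (∀ q : ℚ, algebraMap ℚ L q ∈ A) ∧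
      ¬ (π (MvPolynomial.X 0) ∈ A ∧ π (MvPolynomial.X 1) ∈ A) := by
    intro A
    rw [AtInfinity]
    apply and_congr Iff.rfl
    rw [Fin.exists_fin_two, hπ, hπ]
    tauto
  obtain ⟨ha, he, g, h, h5, h6⟩ := hT
  obtain ⟨hB1, hB2, hB3, hB4, hB5⟩ := hB
  have hA' := (hinf A).1 hA
  have hcL : CharZero L := algebraRat.charZero L
  have hcM : CharZero (AlgebraicClosure L) :=
    charZero_of_injective_algebraMap (algebraMap L (AlgebraicClosure L)).injective
  obtain ⟨σ, hσ⟩ := hord
  have hset : {z : AlgebraicClosure L | IsAlgebraic ℤ z} =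
      {z : AlgebraicClosure L | IsAlgebraic ℚ z} := by
    ext z
    exact IsFractionRing.isAlgebraic_iff ℤ ℚ (AlgebraicClosure L)
  have hcomm : ∀ ι τ, val c w ι τ =
      ∑ j, (ι (IsLocalRing.residue A (w j)) : ℂ) * τ (c j) := fun ι τ =>
    Finset.sum_congr rfl fun j _ => mul_comm _ _
  rcases hfin F c f g h a e N hB1 (fun j => (hB5 j).1) hB2 (fun j => (hB5 j).2.1)
    (fun j => (hB5 j).2.2) ha he hB3 hB4 hirr h5 h6 L π hker hsurj (AlgebraicClosure L) σ (by
      intro p hp hpn y hy
      have h7 := hσ p hp hpn y (by rw [hset]; exact hy)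
      simpa only [hf] using h7) A hA'.1 hA'.2 t w (fun j => by rw [hf]; exact hw j)
      (fun ι τ => by rw [← hcomm]; exact hne ι τ) x y hxy with
    h7 | ⟨h7, d, s, ι, K, h8, h9, h10, ⟨θ, h11, h12, h13⟩, h14, h15, h16⟩
  · exact Or.inl h7
  · refine Or.inr ⟨fun A' => (hinf A').trans (h7 A'), d, s, ι, K, h8, h9, h10,
      ⟨h14, h15, θ, fun τ => ?_, h12, ?_⟩, h16⟩
    · rw [hcomm]
      exact h11 τ
    · rw [h13]
      apply le_antisymm
      · rw [adjoin_le_iff]
        rintro z (hz | hz)
        · exact subset_adjoin _ _ (Or.inl (subset_adjoin _ _ hz))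
        · exact subset_adjoin _ _ (Or.inr hz)
      · rw [adjoin_le_iff]
        rintro z (hz | hz)
        · have h17 : adjoin ℚ (Set.range ι) ≤ adjoin ℚ (Set.range ι ∪
            {x : ℝ | ∃ b : k, (x : ℂ) = ∑ τ : k →+* ℂ, τ b * θ τ}) :=
            adjoin.mono _ _ _ Set.subset_union_left
          exact h17 hz
        · exact subset_adjoin _ _ (Or.inr hz)

end Pool.Agent.Results.MP_821da1_nt.TorsionCoverings
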