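import Pool.Agent.Results.MP_821da1_nt.BoundedlyManyExceptions
import Pool.Agent.Results.MP_2d259b_nt.FewExceptionalCurves
import Pool.Agent.K1H84.VT.Lim

set_option autoImplicit false

/-!
# Explicit bounds for the integer points on ALL plane curves near the multiples of a typical one

Siegel's theorem is not effective. We give an explicit polynomial bound for the integer points on ALL
the curves `F = 0`, without any exception, `F ∈ ℤ[x, y]` irreducible over `ℚ` with squarefree leading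
form, in huge boxes (of side `n ^ θ`) centred at the multiples `n ξ` of a typical real polynomial `ξ`
of degree `d`: for almost all `ξ` in the space `ℝ^((d+1)(d+2)/2)` of these polynomials (part 2); any
`θ < 1 - (8 d - 2) / ((d + 1) (d + 2))` is allowed. More precisely (part 1) the leading forms of
degrees `d`, `d - 1`, `d - 2`, `d - 3` may be arbitrary, and only the part of degree at most `d - 4`
need be near the multiple of a typical one.
-/

namespace Pool.Agent.Results.MP_821da1_nt.TypicalCurves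

open MeasureTheory Filter Topology Polynomial
open scoped ENNReal

/-- the exponents `(i, j)` of the monomials `x^i y^j` of degree at most `k` -/
abbrev Mon (k : ℕ) : Type := {p : Fin (k + 1) × Fin (k + 1) // (p.1 : ℕ) + p.2 ≤ k}

/-- the coefficient of `x^i y^j` in `F` -/
noncomputable def cf {k : ℕ} (F : MvPolynomial (Fin 2) ℤ) (p : Mon k) : ℤ :=
  F.coeff (Finsupp.single 0 (p.1.1 : ℕ) + Finsupp.single 1 (p.1.2 : ℕ))

/-- all coefficients of `F` in the degrees at most `k` differ by at most `r` from those of `l ξ`,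
where `ξ` is a real polynomial of degree at most `k`, given by its coefficients -/
def Near {k : ℕ} (ξ : Mon k → ℝ) (l r : ℝ) (F : MvPolynomial (Fin 2) ℤ) : Prop :=
  ∀ p, |(cf F p : ℝ) - l * ξ p| ≤ r

/-- the bound `((d + 1) h(F)) ^ (10 ^ 17 * 1296 ^ d * (d + 1) ^ 15)`; here `h(F)` is the sum of the
absolute values of the coefficients of `F` -/
noncomputable def bound (d : ℕ) (F : MvPolynomial (Fin 2) ℤ) : ℕ :=
  ((d + 1) * ∑ m ∈ F.support, (F.coeff m).natAbs) ^ (10 ^ 17 * 1296 ^ d * (d + 1) ^ 15)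

/-- all integer points `(x, y)` of the curve `F = 0` satisfy `max |x| |y| ≤ bound d F` -/
def Bounded (d : ℕ) (F : MvPolynomial (Fin 2) ℤ) : Prop :=
  ∀ x y : ℤ, MvPolynomial.eval ![x, y] F = 0 → max x.natAbs y.natAbs ≤ bound d F

/-- `F` is irreducible over `ℚ` -/
def Irr (F : MvPolynomial (Fin 2) ℤ) : Prop :=
  Irreducible (MvPolynomial.map (Int.castRingHom ℚ) F)

/-- `F` has degree `d` and its leading form is squarefree over `ℚ` -/
def SquarefreeLeading (d : ℕ) (F : MvPolynomial (Fin 2) ℤ) : Prop :=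
  F.totalDegree = d ∧ Squarefree (MvPolynomial.map (Int.castRingHom ℚ)
    (MvPolynomial.homogeneousComponent d F))

/-- if the leading form of `F` is irreducible over `ℚ`, then the restriction of `F` to each real
line has degree at least `d - 2` -/
def Lines (d : ℕ) (F : MvPolynomial (Fin 2) ℤ) : Prop :=
  Irreducible (MvPolynomial.map (Int.castRingHom ℚ) (MvPolynomial.homogeneousComponent d F)) →
    ∀ p q : Fin 2 → ℝ, q ≠ 0 → d ≤
      (MvPolynomial.aeval (fun i => (C (p i) + C (q i) * X : ℝ[X])) F).natDegree + 2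

instance : Countable (MvPolynomial (Fin 2) ℤ) := by
  have h := MvPolynomial.cardinalMk_le_max (σ := Fin 2) (R := ℤ)
  rw [← Cardinal.mk_le_aleph0_iff]
  refine h.trans ?_
  simp

/-- the exceptional curves with given four leading forms -/
def Exc (d : ℕ) (T : MvPolynomial (Fin 2) ℤ) : Set (MvPolynomial (Fin 2) ℤ) :=
  {G | (G - T).totalDegree + 4 ≤ d ∧ Irr G ∧ ¬ Bounded d G}

/-- the number of exceptions -/
def NN (d : ℕ) : ℕ := 10 ^ 9 * 36 ^ d * (d + 1) ^ 8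

theorem not_bounded {d : ℕ} {F : MvPolynomial (Fin 2) ℤ} : ¬ Bounded d F ↔ ∃ x y : ℤ,
    MvPolynomial.eval ![x, y] F = 0 ∧ ((d + 1) * ∑ m ∈ F.support, (F.coeff m).natAbs) ^
      (10 ^ 17 * 1296 ^ d * (d + 1) ^ 15) < max x.natAbs y.natAbs := by
  unfold Bounded bound
  push Not
  rfl

theorem exc_encard {d : ℕ} (hd : 4 ≤ d) {T : MvPolynomial (Fin 2) ℤ}
    (h1 : SquarefreeLeading d T) (h2 : Lines d T) : (Exc d T).encard ≤ (NN d : ℕ) := by
  have h := (BoundedlyManyExceptions.result d hd T h1.1 h1.2 h2).2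
  refine le_trans (Set.encard_le_encard ?_) h
  rintro G ⟨g1, g2, g3⟩
  exact ⟨g1, g2, not_bounded.1 g3⟩

/-- part 1 -/
theorem low {d : ℕ} (hd : 4 ≤ d) (lam : ℕ → ℝ) (hlam1 : ∀ n, 1 ≤ lam n) {τ θ a : ℝ}
    (hτ : 0 ≤ τ) (ha : 0 ≤ a) (hθ : θ < 1) (hlam : ∀ t : ℝ, τ < t → Summable fun n => lam n ^ (-t))
    (T : ℕ → Finset (MvPolynomial (Fin 2) ℤ))
    (hT : ∀ n, ∀ F ∈ T n, SquarefreeLeading d F ∧ Lines d F) {A : ℝ}
    (hA : ∀ n, ((T n).card : ℝ) ≤ A * lam n ^ a) :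
    ∃ E : Set (Mon (d - 4) → ℝ), dimH E ≤ ENNReal.ofReal ((a + τ) / (1 - θ)) ∧
      ∀ ξ : Mon (d - 4) → ℝ, ξ ∉ E → ∀ c : ℝ, ∀ᶠ n in atTop, ∀ F ∈ T n,
      ∀ G : MvPolynomial (Fin 2) ℤ, (G - F).totalDegree + 4 ≤ d → Irr G →
        Near ξ (lam n) (c * lam n ^ θ) G → Bounded d G := by
  classical
  have hpos : ∀ n, 0 < lam n := fun n => lt_of_lt_of_le one_pos (hlam1 n)
  have hfin : ∀ n, ∀ F ∈ T n, (Exc d F).Finite := fun n F hF =>
    Set.finite_of_encard_le_coe (exc_encard hd (hT n F hF).1 (hT n F hF).2)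
  set ex : MvPolynomial (Fin 2) ℤ → Finset (MvPolynomial (Fin 2) ℤ) := fun F =>
    if h : (Exc d F).Finite then h.toFinset else ∅ with hex
  have hexc : ∀ n, ∀ F ∈ T n, (ex F).card ≤ NN d := by
    intro n F hF
    have h1 := hfin n F hF
    have h2 := exc_encard hd (hT n F hF).1 (hT n F hF).2
    rw [hex]
    simp only
    rw [dif_pos h1]
    rw [h1.encard_eq_coe_toFinset_card] at h2
    exact_mod_cast h2
  set G : ℕ → Finset (MvPolynomial (Fin 2) ℤ) := fun n => (T n).biUnion ex with hG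
  have hcard : ∀ n, ((G n).card : ℝ) ≤ (NN d * A) * lam n ^ a := by
    intro n
    have h1 : (G n).card ≤ (T n).card * NN d := Finset.card_biUnion_le_card_mul _ _ _ (hexc n)
    have h2 : ((G n).card : ℝ) ≤ (T n).card * NN d := by exact_mod_cast h1
    have h3 := mul_le_mul_of_nonneg_right (hA n) (Nat.cast_nonneg (α := ℝ) (NN d))
    linarith
  set Ec : ℕ → Set (Mon (d - 4) → ℝ) := fun c => {ξ | {p : (n : ℕ) × {x // x ∈ G n} |
      ∀ i, |(cf p.2.1 i : ℝ) - lam p.1 * ξ i| ≤ (c + 1 : ℝ) * lam p.1 ^ θ}.Infinite} with hEc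
  refine ⟨⋃ c, Ec c, ?_, fun ξ hξ c => ?_⟩
  · rw [dimH_iUnion]
    refine iSup_le fun c => ?_
    exact Pool.Agent.K1H84.VT.dim_lim lam hpos hτ ha hθ hlam (fun F i => (cf F i : ℝ)) G hcard
      (by positivity)
  · obtain ⟨m, hm⟩ := exists_nat_ge c
    have h1 : ξ ∉ Ec m := fun h => hξ (Set.mem_iUnion.2 ⟨m, h⟩)
    have h2 : {p : (n : ℕ) × {x // x ∈ G n} | ∀ i, |(cf p.2.1 i : ℝ) - lam p.1 * ξ i| ≤
        (m + 1 : ℝ) * lam p.1 ^ θ}.Finite := by
      by_contra h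
      exact h1 h
    have h3 := Pool.Agent.K1H84.VT.eventually_of_finite G (fun n F => ∀ i, |(cf F i : ℝ) -
      lam n * ξ i| ≤ (m + 1 : ℝ) * lam n ^ θ) h2
    filter_upwards [h3] with n hn F hF H h4 h5 h6
    by_contra h7
    refine hn H ?_ fun i => (h6 i).trans ?_
    · rw [hG]
      simp only
      rw [Finset.mem_biUnion]
      refine ⟨F, hF, ?_⟩
      rw [hex]
      simp only
      rw [dif_pos (hfin n F hF), Set.Finite.mem_toFinset]
      exact ⟨h4, h5, h7⟩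
    · have := hpos n
      exact mul_le_mul_of_nonneg_right (by linarith) (by positivity)

theorem bound_mono (d : ℕ) (b : ℕ) :
    b ^ (10 ^ 11 * 36 ^ d * (d + 1) ^ 13) ≤ b ^ (10 ^ 17 * 1296 ^ d * (d + 1) ^ 15) := by
  rcases Nat.eq_zero_or_pos b with rfl | hb
  · rw [Nat.zero_pow (by positivity)]
    exact Nat.zero_le _
  · apply Nat.pow_le_pow_right hb
    exact Nat.mul_le_mul (Nat.mul_le_mul (by norm_num) (Nat.pow_le_pow_left (by norm_num) d))
      (Nat.pow_le_pow_right (by omega) (by norm_num))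

/-- the exceptional curves of height at most `H` -/
def ExcH (d H : ℕ) : Set (MvPolynomial (Fin 2) ℤ) :=
  {F | (F.totalDegree = d ∧ ∀ m, |F.coeff m| ≤ (H : ℤ)) ∧ Irr F ∧
    Squarefree (MvPolynomial.map (Int.castRingHom ℚ) (MvPolynomial.homogeneousComponent d F)) ∧
    ¬ Bounded d F}

theorem excH {d : ℕ} (hd : 4 ≤ d) (H : ℕ) :
    (ExcH d H).Finite ∧ (ExcH d H).ncard ≤ NN d * (2 * H + 1) ^ (4 * d - 2) := by
  obtain ⟨h1, h2⟩ := Pool.Agent.Results.MP_2d259b_nt.FewExceptionalCurves.result d hd H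
  have hfin : {F : MvPolynomial (Fin 2) ℤ | F.totalDegree ≤ d ∧
      ∀ m, |F.coeff m| ≤ (H : ℤ)}.Finite := by
    apply Set.finite_of_ncard_ne_zero
    rw [h1]
    positivity
  have hsub : ExcH d H ⊆ {F : MvPolynomial (Fin 2) ℤ |
      (F.totalDegree = d ∧ ∀ m, |F.coeff m| ≤ (H : ℤ)) ∧
      Irreducible (MvPolynomial.map (Int.castRingHom ℚ) F) ∧
      Squarefree (MvPolynomial.map (Int.castRingHom ℚ) (MvPolynomial.homogeneousComponent d F)) ∧
      ∃ x y : ℤ, MvPolynomial.eval ![x, y] F = 0 ∧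
        ((d + 1) * ∑ m ∈ F.support, (F.coeff m).natAbs) ^ (10 ^ 11 * 36 ^ d * (d + 1) ^ 13)
          < max x.natAbs y.natAbs} := by
    rintro F ⟨g1, g2, g3, g4⟩
    obtain ⟨x, y, g5, g6⟩ := not_bounded.1 g4
    exact ⟨g1, g2, g3, x, y, g5, lt_of_le_of_lt (bound_mono d _) g6⟩
  refine ⟨hfin.subset fun F hF => ⟨hF.1.1.le, hF.1.2⟩, ?_⟩
  refine (Set.ncard_le_ncard hsub (hfin.subset fun F hF => ⟨hF.1.1.le, hF.1.2⟩)).trans h2

theorem coeff_le {d : ℕ} {F : MvPolynomial (Fin 2) ℤ} (hF : F.totalDegree = d) {B : ℕ}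
    (h : ∀ p : Mon d, |cf F p| ≤ (B : ℤ)) (m : Fin 2 →₀ ℕ) : |F.coeff m| ≤ (B : ℤ) := by
  by_cases hm : m ∈ F.support
  · have h1 : m.degree ≤ d := hF ▸ MvPolynomial.le_totalDegree hm
    have h2 : m.degree = m 0 + m 1 := by
      rw [Finsupp.degree_eq_sum, Fin.sum_univ_two]
    have h3 := h ⟨(⟨m 0, by omega⟩, ⟨m 1, by omega⟩), by show m 0 + m 1 ≤ d; omega⟩
    have h4 : Finsupp.single 0 (m 0) + Finsupp.single 1 (m 1) = m := by
      ext i
      fin_cases i <;> simp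
    unfold cf at h3
    simp only at h3
    rwa [h4] at h3
  · rw [MvPolynomial.notMem_support_iff.1 hm]
    simp

/-- part 2 -/
theorem all {d : ℕ} (hd : 4 ≤ d) (lam : ℕ → ℝ) (hlam1 : ∀ n, 1 ≤ lam n) {τ θ : ℝ}
    (hτ : 0 ≤ τ) (hθ : θ < 1) (hlam : ∀ t : ℝ, τ < t → Summable fun n => lam n ^ (-t)) :
    ∃ E : Set (Mon d → ℝ), dimH E ≤ ENNReal.ofReal ((4 * d - 2 + τ) / (1 - θ)) ∧
      ∀ ξ : Mon d → ℝ, ξ ∉ E → ∀ c : ℝ, ∀ᶠ n in atTop,
      ∀ F : MvPolynomial (Fin 2) ℤ, SquarefreeLeading d F → Irr F →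
        Near ξ (lam n) (c * lam n ^ θ) F → Bounded d F := by
  classical
  have hpos : ∀ n, 0 < lam n := fun n => lt_of_lt_of_le one_pos (hlam1 n)
  have hd' : (4 : ℝ) ≤ d := by exact_mod_cast hd
  set G : ℕ → ℕ → Finset (MvPolynomial (Fin 2) ℤ) := fun K n =>
    (excH hd (K * ⌈lam n⌉₊)).1.toFinset with hG
  have hcard : ∀ K n, ((G K n).card : ℝ) ≤ (NN d * (4 * K + 1) ^ (4 * d - 2)) *
      lam n ^ (4 * d - 2 : ℝ) := by
    intro K n
    have h1 : (G K n).card ≤ NN d * (2 * (K * ⌈lam n⌉₊) + 1) ^ (4 * d - 2) := by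
      have h := (excH hd (K * ⌈lam n⌉₊)).2
      rwa [Set.ncard_eq_toFinset_card _ (excH hd (K * ⌈lam n⌉₊)).1] at h
    have h2 : ((G K n).card : ℝ) ≤ NN d * (2 * (K * ⌈lam n⌉₊) + 1) ^ (4 * d - 2) := by
      exact_mod_cast h1
    refine h2.trans ?_
    have hK : (0 : ℝ) ≤ K := Nat.cast_nonneg K
    have h3 : (2 * (K * (⌈lam n⌉₊ : ℝ)) + 1) ≤ (4 * K + 1) * lam n := by
      have h4 := (Nat.ceil_lt_add_one (hpos n).le).le
      have h5 : (⌈lam n⌉₊ : ℝ) ≤ 2 * lam n := by linarith [hlam1 n]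
      have h6 := mul_le_mul_of_nonneg_left h5 hK
      nlinarith [hlam1 n]
    have h4 : (lam n : ℝ) ^ (4 * d - 2 : ℝ) = lam n ^ (4 * d - 2 : ℕ) := by
      rw [← Real.rpow_natCast]
      congr 1
      rw [Nat.cast_sub (by omega)]
      push_cast
      ring
    rw [h4, mul_assoc, ← mul_pow]
    refine mul_le_mul_of_nonneg_left ?_ (Nat.cast_nonneg _)
    exact pow_le_pow_left₀ (by positivity) h3 _
  set Ec : ℕ × ℕ → Set (Mon d → ℝ) := fun c => {ξ | {p : (n : ℕ) × {x // x ∈ G c.2 n} |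
      ∀ i, |(cf p.2.1 i : ℝ) - lam p.1 * ξ i| ≤ (c.1 + 1 : ℝ) * lam p.1 ^ θ}.Infinite} with hEc
  refine ⟨⋃ c, Ec c, ?_, fun ξ hξ c => ?_⟩
  · rw [dimH_iUnion]
    refine iSup_le fun c => ?_
    exact Pool.Agent.K1H84.VT.dim_lim lam hpos hτ (by linarith) hθ hlam
      (fun F i => (cf F i : ℝ)) (G c.2) (hcard c.2) (by positivity)
  · obtain ⟨m, hm⟩ := exists_nat_ge c
    obtain ⟨K, hK⟩ := exists_nat_ge (∑ i, |ξ i| + |c|)
    have h1 : ξ ∉ Ec (m, K) := fun h => hξ (Set.mem_iUnion.2 ⟨(m, K), h⟩)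
    have h2 : {p : (n : ℕ) × {x // x ∈ G K n} | ∀ i, |(cf p.2.1 i : ℝ) - lam p.1 * ξ i| ≤
        (m + 1 : ℝ) * lam p.1 ^ θ}.Finite := by
      by_contra h
      exact h1 h
    have h3 := Pool.Agent.K1H84.VT.eventually_of_finite (G K) (fun n F => ∀ i, |(cf F i : ℝ) -
      lam n * ξ i| ≤ (m + 1 : ℝ) * lam n ^ θ) h2
    filter_upwards [h3] with n hn F h4 h5 h6
    by_contra h7
    have hl := hpos n
    refine hn F ?_ fun i => (h6 i).trans ?_
    · rw [hG]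
      simp only
      rw [Set.Finite.mem_toFinset]
      refine ⟨⟨h4.1, coeff_le h4.1 fun p => ?_⟩, h5, h4.2, h7⟩
      have g1 := h6 p
      have g2 : |(cf F p : ℝ)| ≤ lam n * |ξ p| + c * lam n ^ θ := by
        have g3 := abs_sub_abs_le_abs_sub (cf F p : ℝ) (lam n * ξ p)
        rw [abs_mul, abs_of_pos hl] at g3
        linarith
      have g4 : |ξ p| ≤ ∑ i, |ξ i| :=
        Finset.single_le_sum (f := fun i => |ξ i|) (fun i _ => abs_nonneg _) (Finset.mem_univ p)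
      have g5 : lam n ^ θ ≤ lam n := by
        calc lam n ^ θ ≤ lam n ^ (1 : ℝ) :=
              Real.rpow_le_rpow_of_exponent_le (hlam1 n) hθ.le
          _ = lam n := Real.rpow_one _
      have g6 : c * lam n ^ θ ≤ |c| * lam n :=
        (mul_le_mul_of_nonneg_right (le_abs_self c) (by positivity)).trans
          (mul_le_mul_of_nonneg_left g5 (abs_nonneg c))
      have g7 : |(cf F p : ℝ)| ≤ K * ⌈lam n⌉₊ := by
        have g8 := Nat.le_ceil (lam n)
        have g9 : (0 : ℝ) ≤ K := Nat.cast_nonneg K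
        calc |(cf F p : ℝ)| ≤ (|ξ p| + |c|) * lam n := by linarith
          _ ≤ K * lam n := mul_le_mul_of_nonneg_right (by linarith) hl.le
          _ ≤ K * ⌈lam n⌉₊ := mul_le_mul_of_nonneg_left g8 g9
      have g8 : ((|cf F p| : ℤ) : ℝ) ≤ (((K * ⌈lam n⌉₊ : ℕ) : ℤ) : ℝ) := by
        push_cast
        exact g7
      exact_mod_cast g8
    · exact mul_le_mul_of_nonneg_right (by linarith) (by positivity)

/-- the number of monomials -/
theorem card_Mon (k : ℕ) : Fintype.card (Mon k) = (k + 1) * (k + 2) / 2 := by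
  classical
  rw [Fintype.card_subtype, Finset.card_filter, Fintype.sum_prod_type]
  have h1 : ∀ i : Fin (k + 1), ∑ j : Fin (k + 1), (if (i : ℕ) + j ≤ k then 1 else 0) =
      k + 1 - (i : ℕ) := by
    intro i
    rw [Fin.sum_univ_eq_sum_range (fun j => if (i : ℕ) + j ≤ k then 1 else 0) (k + 1),
      ← Finset.card_filter]
    have h2 : (Finset.range (k + 1)).filter (fun j => (i : ℕ) + j ≤ k) =
        Finset.range (k + 1 - i) := by
      ext j
      rw [Finset.mem_filter, Finset.mem_range, Finset.mem_range]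
      omega
    rw [h2, Finset.card_range]
  rw [Finset.sum_congr rfl fun i _ => h1 i,
    Fin.sum_univ_eq_sum_range (fun i => k + 1 - i) (k + 1)]
  have h3 : ∀ k : ℕ, (∑ i ∈ Finset.range (k + 1), (k + 1 - i)) * 2 = (k + 1) * (k + 2) := by
    intro k
    induction k with
    | zero => simp
    | succ k ih =>
      rw [Finset.sum_range_succ']
      have e : ∑ i ∈ Finset.range (k + 1), (k + 1 + 1 - (i + 1)) =
          ∑ i ∈ Finset.range (k + 1), (k + 1 - i) :=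
        Finset.sum_congr rfl fun i _ => by omega
      rw [e, add_mul, ih, Nat.sub_zero]
      ring
  have h4 := h3 k
  omega

/-- part 3 -/
theorem almost {d : ℕ} (hd : 4 ≤ d) {θ : ℝ} (hθ : θ < 1)
    (hdθ : (4 * d - 1 : ℝ) < (1 - θ) * ((d + 1) * (d + 2) / 2)) :
    ∀ᵐ ξ : Mon d → ℝ, ∀ c : ℝ, ∀ᶠ n : ℕ in atTop,
      ∀ F : MvPolynomial (Fin 2) ℤ, SquarefreeLeading d F → Irr F →
        Near ξ n (c * (n : ℝ) ^ θ) F → Bounded d F := by
  obtain ⟨E, hE0, hE⟩ := all hd (fun n => (n : ℝ) + 1)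
    (fun n => by have : (0 : ℝ) ≤ n := Nat.cast_nonneg n; linarith) (τ := 1) zero_le_one hθ (by
      intro t ht
      have h := (summable_nat_add_iff 1).2 (Real.summable_nat_rpow.2 (by linarith : -t < -1))
      refine h.congr fun n => ?_
      push_cast
      rfl)
  have h1 : (volume : Measure (Mon d → ℝ)) E = 0 := by
    rw [← hausdorffMeasure_pi_real]
    have h2 : ((Fintype.card (Mon d) : NNReal) : ℝ) = Fintype.card (Mon d) := by simp
    rw [← h2]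
    apply hausdorffMeasure_of_dimH_lt
    refine hE0.trans_lt ?_
    have h3 : ((Fintype.card (Mon d) : NNReal) : ℝ≥0∞) =
        ENNReal.ofReal ((Fintype.card (Mon d) : ℕ) : ℝ) := by
      rw [ENNReal.ofReal_natCast]
      simp
    have h4 : ((Fintype.card (Mon d) : ℕ) : ℝ) = (d + 1) * (d + 2) / 2 := by
      rw [card_Mon, Nat.cast_div (by
        have h := Nat.even_mul_succ_self (d + 1)
        exact h.two_dvd) (by norm_num)]
      push_cast
      ring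
    have h5 : (0 : ℝ) < (d + 1) * (d + 2) / 2 := by positivity
    rw [h3, h4, ENNReal.ofReal_lt_ofReal_iff h5, div_lt_iff₀ (by linarith)]
    linarith [mul_comm (1 - θ) (((d : ℝ) + 1) * (d + 2) / 2)]
  filter_upwards [measure_eq_zero_iff_ae_notMem.1 h1] with ξ hξ c
  obtain ⟨n0, hn0⟩ := eventually_atTop.1 (hE ξ hξ c)
  filter_upwards [eventually_ge_atTop (n0 + 1)] with n hn F h2 h3 h4
  obtain ⟨m, rfl⟩ : ∃ m, n = m + 1 := ⟨n - 1, by omega⟩
  refine hn0 m (by omega) F h2 h3 ?_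
  have e : ((m + 1 : ℕ) : ℝ) = (m : ℝ) + 1 := by push_cast; rfl
  rw [e] at h4
  exact h4

/-- the coefficients of `F` are bounded if `F` is near `n ξ` -/
theorem mem_excH {d : ℕ} {F : MvPolynomial (Fin 2) ℤ} {ξ : Mon d → ℝ} (hξ : ∀ i, |ξ i| ≤ 1)
    {n : ℕ} (hn : 1 ≤ n) {c θ : ℝ} (hc : 0 ≤ c) (hθ : θ < 1) (h1 : SquarefreeLeading d F)
    (h2 : Irr F) (h3 : Near ξ n (c * (n : ℝ) ^ θ) F) (h4 : ¬ Bounded d F) :
    F ∈ ExcH d ⌈(1 + c) * n⌉₊ := by
  refine ⟨⟨h1.1, coeff_le h1.1 fun p => ?_⟩, h2, h1.2, h4⟩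
  have hn1 : (1 : ℝ) ≤ n := by exact_mod_cast hn
  have g1 := h3 p
  have g2 : |(cf F p : ℝ)| ≤ n * |ξ p| + c * (n : ℝ) ^ θ := by
    have g3 := abs_sub_abs_le_abs_sub (cf F p : ℝ) ((n : ℝ) * ξ p)
    rw [abs_mul, abs_of_pos (by linarith : (0 : ℝ) < n)] at g3
    linarith
  have g5 : (n : ℝ) ^ θ ≤ n := by
    calc (n : ℝ) ^ θ ≤ (n : ℝ) ^ (1 : ℝ) := Real.rpow_le_rpow_of_exponent_le hn1 hθ.le
      _ = n := Real.rpow_one _
  have g6 : |(cf F p : ℝ)| ≤ (⌈(1 + c) * n⌉₊ : ℝ) := by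
    refine le_trans ?_ (Nat.le_ceil _)
    have g7 := mul_le_mul_of_nonneg_left (hξ p) (by linarith : (0 : ℝ) ≤ n)
    have g8 := mul_le_mul_of_nonneg_left g5 hc
    linarith
  have g8 : ((|cf F p| : ℤ) : ℝ) ≤ ((⌈(1 + c) * n⌉₊ : ℤ) : ℝ) := by
    push_cast
    exact g6
  exact_mod_cast g8

/-- part 3, an explicit bound for the measure of the exceptional polynomials -/
theorem measure_bad {d : ℕ} (hd : 4 ≤ d) {θ c : ℝ} (hθ : θ < 1) (hc : 0 ≤ c) (m : ℕ) (hm : 1 ≤ m) :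
    volume {ξ : Mon d → ℝ | (∀ i, |ξ i| ≤ 1) ∧ ∃ n : ℕ, m ≤ n ∧ ∃ F : MvPolynomial (Fin 2) ℤ,
      SquarefreeLeading d F ∧ Irr F ∧ Near ξ n (c * (n : ℝ) ^ θ) F ∧ ¬ Bounded d F} ≤
      ∑' n : {n : ℕ // m ≤ n}, ENNReal.ofReal ((10 ^ 9 * 36 ^ d * (d + 1) ^ 8) *
        (2 * ⌈(1 + c) * (n : ℕ)⌉₊ + 1) ^ (4 * d - 2) *
        (2 * c * ((n : ℕ) : ℝ) ^ (θ - 1)) ^ ((d + 1) * (d + 2) / 2)) := by
  classical
  have hsub : {ξ : Mon d → ℝ | (∀ i, |ξ i| ≤ 1) ∧ ∃ n : ℕ, m ≤ n ∧ ∃ F : MvPolynomial (Fin 2) ℤ,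
      SquarefreeLeading d F ∧ Irr F ∧ Near ξ n (c * (n : ℝ) ^ θ) F ∧ ¬ Bounded d F} ⊆
      ⋃ n : {n : ℕ // m ≤ n}, ⋃ F ∈ (excH hd ⌈(1 + c) * (n : ℕ)⌉₊).1.toFinset,
        Set.Icc (fun i : Mon d => ((cf F i : ℝ) - c * ((n : ℕ) : ℝ) ^ θ) / (n : ℕ))
          (fun i : Mon d => ((cf F i : ℝ) + c * ((n : ℕ) : ℝ) ^ θ) / (n : ℕ)) := by
    rintro ξ ⟨hξ, n, hn, F, h1, h2, h3, h4⟩
    rw [Set.mem_iUnion]
    refine ⟨⟨n, hn⟩, ?_⟩
    rw [Set.mem_iUnion₂]
    refine ⟨F, ?_, ?_⟩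
    · rw [Set.Finite.mem_toFinset]
      exact mem_excH hξ (hm.trans hn) hc hθ h1 h2 h3 h4
    · have hn0 : (0 : ℝ) < n := by exact_mod_cast (show 0 < n by omega)
      rw [Set.mem_Icc]
      constructor
      · intro i
        have h5 := abs_le.1 (h3 i)
        show ((cf F i : ℝ) - c * (n : ℝ) ^ θ) / n ≤ ξ i
        rw [div_le_iff₀ hn0]
        linarith [mul_comm (n : ℝ) (ξ i)]
      · intro i
        have h5 := abs_le.1 (h3 i)
        show ξ i ≤ ((cf F i : ℝ) + c * (n : ℝ) ^ θ) / n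
        rw [le_div_iff₀ hn0]
        linarith [mul_comm (n : ℝ) (ξ i)]
  refine (measure_mono hsub).trans ((measure_iUnion_le _).trans (ENNReal.tsum_le_tsum fun n => ?_))
  obtain ⟨n, hn⟩ := n
  have hn0 : (0 : ℝ) < n := by exact_mod_cast (show 0 < n by omega)
  have hvol : ∀ F : MvPolynomial (Fin 2) ℤ, volume (Set.Icc
      (fun i : Mon d => ((cf F i : ℝ) - c * (n : ℝ) ^ θ) / n)
      (fun i : Mon d => ((cf F i : ℝ) + c * (n : ℝ) ^ θ) / n)) =
      ENNReal.ofReal ((2 * c * (n : ℝ) ^ (θ - 1)) ^ ((d + 1) * (d + 2) / 2)) := by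
    intro F
    have e : ∀ i : Mon d, ((cf F i : ℝ) + c * (n : ℝ) ^ θ) / n -
        ((cf F i : ℝ) - c * (n : ℝ) ^ θ) / n = 2 * c * (n : ℝ) ^ (θ - 1) := by
      intro i
      rw [← sub_div, Real.rpow_sub_one hn0.ne']
      ring
    rw [Real.volume_Icc_pi, Finset.prod_congr rfl fun i _ => by rw [e i], Finset.prod_const,
      Finset.card_univ, card_Mon, ENNReal.ofReal_pow (by positivity)]
  refine (measure_biUnion_finset_le _ _).trans ?_
  show ∑ F ∈ (excH hd ⌈(1 + c) * (n : ℝ)⌉₊).1.toFinset, volume (Set.Icc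
      (fun i : Mon d => ((cf F i : ℝ) - c * (n : ℝ) ^ θ) / n)
      (fun i : Mon d => ((cf F i : ℝ) + c * (n : ℝ) ^ θ) / n)) ≤ _
  rw [Finset.sum_congr rfl fun F _ => hvol F, Finset.sum_const, nsmul_eq_mul]
  have h1 : (((excH hd ⌈(1 + c) * (n : ℝ)⌉₊).1.toFinset.card : ℕ) : ℝ) ≤
      (10 ^ 9 * 36 ^ d * (d + 1) ^ 8) * (2 * ⌈(1 + c) * (n : ℝ)⌉₊ + 1) ^ (4 * d - 2) := by
    have h := (excH hd ⌈(1 + c) * (n : ℝ)⌉₊).2
    rw [Set.ncard_eq_toFinset_card _ (excH hd ⌈(1 + c) * (n : ℝ)⌉₊).1] at h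
    unfold NN at h
    exact_mod_cast h
  have h2 : (((excH hd ⌈(1 + c) * (n : ℝ)⌉₊).1.toFinset.card : ℕ) : ℝ≥0∞) =
      ENNReal.ofReal (((excH hd ⌈(1 + c) * (n : ℝ)⌉₊).1.toFinset.card : ℕ) : ℝ) := by
    rw [ENNReal.ofReal_natCast]
  rw [h2, ← ENNReal.ofReal_mul (Nat.cast_nonneg _)]
  apply ENNReal.ofReal_le_ofReal
  exact mul_le_mul_of_nonneg_right h1 (by positivity)

/-- **Main theorem.** Let `d ≥ 4` and `θ < 1`.

(1) Let `λ_n ≥ 1` be a sequence of exponent of convergence at most `τ` (for instance `λ_n = 2 ^ n`,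
`τ = 0`, or `λ_n = n`, `τ = 1`) and let `T_n` be arbitrary sets of at most `A λ_n ^ a` integer
polynomials `F` of degree `d` with squarefree leading forms, with the property `Lines`. There is a set
`E` of Hausdorff dimension at most `(a + τ) / (1 - θ)` in the space of the real polynomials of degree
at most `d - 4` such that for each `ξ` outside `E`, each `c` and all but finitely many `n`: ALL the
curves `G = 0` with the following properties have only integer points `(x, y)` with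
`max |x| |y| ≤ ((d + 1) h(G)) ^ (10 ^ 17 * 1296 ^ d * (d + 1) ^ 15)`: `G ∈ ℤ[x, y]` is irreducible over
`ℚ`, agrees in the degrees larger than `d - 4` with a member of `T_n`, and all its other coefficients
differ by at most `c λ_n ^ θ` from those of `λ_n ξ`.

(2) If `4 d - 1 < (1 - θ) (d + 1) (d + 2) / 2`, then for almost all real polynomials `ξ` of degree at
most `d`, each `c` and all large `n`: ALL the curves `F = 0`, `F ∈ ℤ[x, y]` of degree `d`, irreducible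
over `ℚ`, with squarefree leading form, all of whose coefficients differ by at most `c n ^ θ` from
those of `n ξ`, have only integer points `(x, y)` with the same explicit bound.

(3) Effective form of (2): for `c ≥ 0` and `m ≥ 1` the measure of the set of the `ξ` in the cube
`[-1, 1]^((d+1)(d+2)/2)` for which this fails for some `n ≥ m` is at most the explicit sum over
`n ≥ m` of `10^9 36^d (d+1)^8 (2 ⌈(1+c) n⌉ + 1)^(4d-2) (2 c n^(θ-1))^((d+1)(d+2)/2)`. -/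
theorem result (d : ℕ) (hd : 4 ≤ d) (θ : ℝ) (hθ : θ < 1) :
    (∀ (lam : ℕ → ℝ) (τ a A : ℝ), (∀ n, 1 ≤ lam n) → 0 ≤ τ → 0 ≤ a →
      (∀ t : ℝ, τ < t → Summable fun n => lam n ^ (-t)) →
      ∀ T : ℕ → Finset (MvPolynomial (Fin 2) ℤ),
      (∀ n, ∀ F ∈ T n, SquarefreeLeading d F ∧ Lines d F) →
      (∀ n, ((T n).card : ℝ) ≤ A * lam n ^ a) →
      ∃ E : Set (Mon (d - 4) → ℝ), dimH E ≤ ENNReal.ofReal ((a + τ) / (1 - θ)) ∧
        ∀ ξ : Mon (d - 4) → ℝ, ξ ∉ E → ∀ c : ℝ, ∀ᶠ n in atTop, ∀ F ∈ T n,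
        ∀ G : MvPolynomial (Fin 2) ℤ, (G - F).totalDegree + 4 ≤ d → Irr G →
          Near ξ (lam n) (c * lam n ^ θ) G → Bounded d G) ∧
    ((4 * d - 1 : ℝ) < (1 - θ) * ((d + 1) * (d + 2) / 2) →
      ∀ᵐ ξ : Mon d → ℝ, ∀ c : ℝ, ∀ᶠ n : ℕ in atTop,
        ∀ F : MvPolynomial (Fin 2) ℤ, SquarefreeLeading d F → Irr F →
          Near ξ n (c * (n : ℝ) ^ θ) F → Bounded d F) ∧
    ∀ (c : ℝ) (m : ℕ), 0 ≤ c → 1 ≤ m →
      volume {ξ : Mon d → ℝ | (∀ i, |ξ i| ≤ 1) ∧ ∃ n : ℕ, m ≤ n ∧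
        ∃ F : MvPolynomial (Fin 2) ℤ, SquarefreeLeading d F ∧ Irr F ∧
          Near ξ n (c * (n : ℝ) ^ θ) F ∧ ¬ Bounded d F} ≤
      ∑' n : {n : ℕ // m ≤ n}, ENNReal.ofReal ((10 ^ 9 * 36 ^ d * (d + 1) ^ 8) *
        (2 * ⌈(1 + c) * (n : ℕ)⌉₊ + 1) ^ (4 * d - 2) *
        (2 * c * ((n : ℕ) : ℝ) ^ (θ - 1)) ^ ((d + 1) * (d + 2) / 2)) :=
  ⟨fun lam _ _ _ h1 h2 h3 h4 T h5 h6 => low hd lam h1 h2 h3 hθ h4 T h5 h6,
    fun h => almost hd hθ h, fun _ m hc hm => measure_bad hd hθ hc m hm⟩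

end Pool.Agent.Results.MP_821da1_nt.TypicalCurves
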